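import Pool.Agent.helper63.CL.Count
import Pool.Agent.helper63.CL.Form

/-!
# Infinitely many `k` such that few cycles of the 3x+1 map have length at most `k`
-/

set_option autoImplicit false

namespace Pool.Agent.helper64.CL

open Pool.Agent.helper62.Col Pool.Agent.helper63.CL Function

/-- distance to the nearest multiple of `log 3`, divided by `log 3` -/
noncomputable def nd (p : ℕ) : ℝ :=
  |(p : ℝ) * (Real.log 2 / Real.log 3) - round ((p : ℝ) * (Real.log 2 / Real.log 3))|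

theorem log3_pos : 0 < Real.log 3 := Real.log_pos (by norm_num)

theorem nd_mul (p : ℕ) (i : ℤ) : nd p * Real.log 3 ≤ |(p : ℝ) * Real.log 2 - i * Real.log 3| := by
  have h3 := log3_pos
  have h1 : nd p ≤ |(p : ℝ) * (Real.log 2 / Real.log 3) - i| := round_le _ i
  have h2 : |(p : ℝ) * Real.log 2 - i * Real.log 3| =
      |(p : ℝ) * (Real.log 2 / Real.log 3) - i| * Real.log 3 := by
    rw [← abs_of_pos h3, ← abs_mul, abs_of_pos h3]
    congr 1
    field_simp
  rw [h2]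
  exact mul_le_mul_of_nonneg_right h1 h3.le

theorem nd_pos {p : ℕ} (hp : 1 ≤ p) : 0 < nd p := by
  have h3 := log3_pos
  have h1 := form_lower hp (round ((p : ℝ) * (Real.log 2 / Real.log 3)))
  have h2 : 0 < c0 / (p : ℝ) ^ 23 := by
    have := c0_pos
    have : (0 : ℝ) < p := by exact_mod_cast hp
    positivity
  unfold nd
  rw [abs_pos]
  intro h0
  have h4 : (p : ℝ) * Real.log 2 - (round ((p : ℝ) * (Real.log 2 / Real.log 3)) : ℤ) * Real.log 3 = 0 := by
    have h5 : (p : ℝ) * (Real.log 2 / Real.log 3) = (round ((p : ℝ) * (Real.log 2 / Real.log 3)) : ℤ) := by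
      linarith
    rw [← h5]
    field_simp
    ring
  rw [h4, abs_zero] at h1
  linarith

/-- arbitrarily large `k` such that all `p ≤ k` are badly approximable -/
theorem exists_k (K : ℕ) : ∃ k : ℕ, K ≤ k ∧ 1 ≤ k ∧ ∀ p : ℕ, 1 ≤ p → p ≤ k →
    1 / (2 * ((k : ℝ) + 1)) ≤ nd p := by
  classical
  set K' := K + 1 with hK'
  obtain ⟨p₀, hp₀, hmin⟩ := Finset.exists_min_image (Finset.Icc 1 K') nd
    ⟨1, by rw [Finset.mem_Icc]; omega⟩
  rw [Finset.mem_Icc] at hp₀
  set m := nd p₀ with hm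
  have hmpos : 0 < m := nd_pos hp₀.1
  -- a better approximation exists
  have hex : ∃ p : ℕ, 1 ≤ p ∧ nd p < m := by
    obtain ⟨n, hn⟩ := exists_nat_gt (1 / m)
    have hn0 : 0 < n := by
      have : (0 : ℝ) < n := lt_trans (by positivity) hn
      exact_mod_cast this
    obtain ⟨k, hk0, -, hk⟩ := Real.exists_nat_abs_mul_sub_round_le (Real.log 2 / Real.log 3) hn0
    refine ⟨k, hk0, lt_of_le_of_lt hk ?_⟩
    rw [div_lt_iff₀ (by positivity)]
    rw [div_lt_iff₀ hmpos] at hn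
    nlinarith
  set q := Nat.find hex with hq
  obtain ⟨hq1, hq2⟩ := Nat.find_spec hex
  rw [← hq] at hq1 hq2
  have hless : ∀ p, 1 ≤ p → p < q → m ≤ nd p := by
    intro p hp1 hpq
    by_contra hcon
    push Not at hcon
    exact Nat.find_min hex hpq ⟨hp1, hcon⟩
  have hKq : K' < q := by
    by_contra hcon
    push Not at hcon
    have := hmin q (by rw [Finset.mem_Icc]; exact ⟨hq1, hcon⟩)
    linarith
  have hp₀q : p₀ < q := lt_of_le_of_lt hp₀.2 hKq
  -- the lower bound for m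
  have hmlow : 1 / (2 * (q : ℝ)) ≤ m := by
    by_contra hcon
    push Not at hcon
    have hqpos : (0 : ℝ) < q := by exact_mod_cast hq1
    rw [lt_div_iff₀ (by positivity)] at hcon
    set ξ := Real.log 2 / Real.log 3 with hξ
    set a : ℤ := round ((p₀ : ℝ) * ξ) with ha
    set b : ℤ := round ((q : ℝ) * ξ) with hb
    have e1 : |(p₀ : ℝ) * ξ - a| = m := rfl
    have e2 : |(q : ℝ) * ξ - b| < m := hq2
    have hp0pos : (0 : ℝ) < p₀ := by exact_mod_cast hp₀.1
    have hp0q' : (p₀ : ℝ) < q := by exact_mod_cast hp₀q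
    have e3 : |((a * q - b * p₀ : ℤ) : ℝ)| < 1 := by
      have h1 : ((a * q - b * p₀ : ℤ) : ℝ) =
          p₀ * ((q : ℝ) * ξ - b) - q * ((p₀ : ℝ) * ξ - a) := by
        push_cast; ring
      rw [h1]
      calc |p₀ * ((q : ℝ) * ξ - b) - q * ((p₀ : ℝ) * ξ - a)|
          ≤ |p₀ * ((q : ℝ) * ξ - b)| + |q * ((p₀ : ℝ) * ξ - a)| := abs_sub _ _
        _ = p₀ * |(q : ℝ) * ξ - b| + q * |(p₀ : ℝ) * ξ - a| := by
            rw [abs_mul, abs_mul, abs_of_pos hp0pos, abs_of_pos hqpos]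
        _ ≤ p₀ * m + q * m := by
            rw [e1]
            have := mul_le_mul_of_nonneg_left e2.le hp0pos.le
            linarith
        _ < 1 := by nlinarith
    have e4 : a * q - b * p₀ = 0 := by
      rw [← Int.abs_lt_one_iff]
      exact_mod_cast e3
    have e5 : (a : ℝ) * q = b * p₀ := by
      have : ((a * q - b * p₀ : ℤ) : ℝ) = 0 := by rw [e4]; simp
      push_cast at this
      linarith
    have e6 : (p₀ : ℝ) * |(q : ℝ) * ξ - b| = q * m := by
      rw [← e1, ← abs_of_pos hp0pos, ← abs_of_pos hqpos, ← abs_mul, ← abs_mul, abs_of_pos hp0pos,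
        abs_of_pos hqpos]
      congr 1
      linear_combination e5
    have e7 : (p₀ : ℝ) * |(q : ℝ) * ξ - b| < p₀ * m := mul_lt_mul_of_pos_left e2 hp0pos
    nlinarith
  refine ⟨q - 1, by omega, by omega, fun p hp1 hp2 => ?_⟩
  have hcast : (((q - 1 : ℕ) : ℝ) + 1) = q := by
    rw [Nat.cast_sub hq1]; simp
  rw [hcast]
  exact hmlow.trans (hless p hp1 (by omega))

/-- for infinitely many `k` there are at most `C k^s` cycles of length at most `k` -/
theorem few (s : ℝ) (hs : kap < s) (hs1 : s ≤ 1) : ∃ C : ℝ, 0 < C ∧ ∀ K : ℕ, ∃ k : ℕ, K ≤ k ∧ 1 ≤ k ∧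
    {c : Finset ℤ | Cyc c ∧ c.card ≤ k}.Finite ∧
    (({c : Finset ℤ | Cyc c ∧ c.card ≤ k}.ncard : ℕ) : ℝ) ≤ C * (k : ℝ) ^ s := by
  obtain ⟨C, hC, h⟩ := count_cycles s hs hs1
  have hs0 : 0 < s := kap_pos.trans hs
  refine ⟨C * 4 ^ s, by positivity, fun K => ?_⟩
  obtain ⟨k, hK, hk1, hk⟩ := exists_k K
  refine ⟨k, hK, hk1, ?_⟩
  have h3 := log3_pos
  have hkpos : (0 : ℝ) < k := by exact_mod_cast hk1
  have hl3 : 1 ≤ Real.log 3 := by
    have := log_three_gt
    linarith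
  obtain ⟨hf, hn⟩ := h (1 / (4 * (k : ℝ))) (by positivity)
  have hsub : {c : Finset ℤ | Cyc c ∧ c.card ≤ k} ⊆
      {c : Finset ℤ | Cyc c ∧ 1 / (4 * (k : ℝ)) ≤ |lam c|} := by
    rintro c ⟨hc, hck⟩
    refine ⟨hc, ?_⟩
    have hc1 : 1 ≤ c.card := by
      obtain ⟨n, hn', rfl⟩ := hc.eq_O
      rw [card_O]
      exact minimalPeriod_pos_of_mem_periodicPts hn'
    have h4 := hk c.card hc1 hck
    have h5 := nd_mul c.card ((od c).card : ℤ)
    rw [Int.cast_natCast] at h5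
    have h6 : |lam c| = |(c.card : ℝ) * Real.log 2 - (od c).card * Real.log 3| := rfl
    rw [h6]
    refine le_trans ?_ h5
    have h7 : 1 / (4 * (k : ℝ)) ≤ 1 / (2 * ((k : ℝ) + 1)) := by
      apply one_div_le_one_div_of_le (by positivity)
      have : (1 : ℝ) ≤ k := by exact_mod_cast hk1
      linarith
    have h8 : 0 ≤ nd c.card := abs_nonneg _
    nlinarith
  refine ⟨hf.subset hsub, ?_⟩
  calc (({c : Finset ℤ | Cyc c ∧ c.card ≤ k}.ncard : ℕ) : ℝ)
      ≤ ({c : Finset ℤ | Cyc c ∧ 1 / (4 * (k : ℝ)) ≤ |lam c|}.ncard : ℕ) := by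
        exact_mod_cast Set.ncard_le_ncard hsub hf
    _ ≤ C * (1 / (4 * (k : ℝ))) ^ (-s) := hn
    _ = C * 4 ^ s * (k : ℝ) ^ s := by
        rw [one_div, Real.inv_rpow (by positivity), Real.rpow_neg (by positivity), inv_inv,
          Real.mul_rpow (by norm_num) hkpos.le]
        ring

/-- for infinitely many `k` there are at most `k^(19/20)` cycles of length at most `k` -/
theorem few' : ∀ K : ℕ, ∃ k : ℕ, K ≤ k ∧
    {c : Finset ℤ | Cyc c ∧ c.card ≤ k}.Finite ∧
    (({c : Finset ℤ | Cyc c ∧ c.card ≤ k}.ncard : ℕ) : ℝ) ≤ (k : ℝ) ^ (19 / 20 : ℝ) := by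
  intro K
  set s : ℝ := (kap + 19 / 20) / 2 with hs
  have hk := kap_lt
  obtain ⟨C, hC, h⟩ := few s (by linarith) (by linarith)
  -- large k absorb the constant
  have hd : 0 < 19 / 20 - s := by linarith
  obtain ⟨N, hN⟩ := exists_nat_gt (C ^ (1 / (19 / 20 - s)))
  obtain ⟨k, hK, hk1, hf, hc⟩ := h (max K N)
  refine ⟨k, (le_max_left _ _).trans hK, hf, hc.trans ?_⟩
  have hkpos : (0 : ℝ) < k := by exact_mod_cast hk1
  have hNk : (N : ℝ) ≤ k := by exact_mod_cast (le_max_right _ _).trans hK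
  have hCk : C ≤ (k : ℝ) ^ (19 / 20 - s) := by
    have h1 : C ^ (1 / (19 / 20 - s)) ≤ k := (hN.le).trans hNk
    calc C = (C ^ (1 / (19 / 20 - s))) ^ (19 / 20 - s) := by
          rw [← Real.rpow_mul hC.le, one_div, inv_mul_cancel₀ hd.ne', Real.rpow_one]
      _ ≤ (k : ℝ) ^ (19 / 20 - s) := Real.rpow_le_rpow (by positivity) h1 hd.le
  calc C * (k : ℝ) ^ s ≤ (k : ℝ) ^ (19 / 20 - s) * (k : ℝ) ^ s := by gcongr
    _ = (k : ℝ) ^ (19 / 20 : ℝ) := by
        rw [← Real.rpow_add hkpos]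
        congr 1
        ring

end Pool.Agent.helper64.CL
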